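import Pool.Agent.H20F.Defs

/-!
# Compactness: a strict bound for vector systems is uniform
-/

set_option autoImplicit false

namespace Pool.Agent.H20F

open Matrix
open scoped MatrixOrder Classical

/-- A finite family of vectors has an isometric copy in a fixed Euclidean space. -/
lemma exists_copy {L : Type} [Fintype L] {E : Type*} [NormedAddCommGroup E]
    [InnerProductSpace ℝ E] (v : L → E) :
    ∃ w : L → EuclideanSpace ℝ L, ∀ i j, inner ℝ (w i) (w j) = inner ℝ (v i) (v j) := by
  have hG := posSemidef_gram ℝ v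
  obtain ⟨B, hB⟩ := CStarAlgebra.nonneg_iff_eq_star_mul_self.mp hG.nonneg
  refine ⟨fun j => WithLp.toLp 2 (fun k => B k j), fun i j => ?_⟩
  have h := congrFun (congrFun hB i) j
  rw [gram_apply] at h
  rw [h, star_eq_conjTranspose, mul_apply, EuclideanSpace.inner_toLp_toLp, dotProduct]
  refine Finset.sum_congr rfl fun k _ => ?_
  simp [mul_comm]

/-- the index set of a vector system -/
abbrev Idx := Option ((Q × Ans) ⊕ (Q × Ans))

/-- the fixed Euclidean space -/
abbrev FixE := EuclideanSpace ℝ Idx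

lemma sum_eq_of_inner {L ι : Type} [Fintype ι] {E F : Type*} [NormedAddCommGroup E]
    [InnerProductSpace ℝ E] [NormedAddCommGroup F] [InnerProductSpace ℝ F] {v : L → E} {w : L → F}
    (h : ∀ i j, inner ℝ (w i) (w j) = inner ℝ (v i) (v j)) (f : ι → L) (o : L)
    (hs : ∑ a, v (f a) = v o) : ∑ a, w (f a) = w o := by
  rw [← sub_eq_zero, ← inner_self_eq_zero (𝕜 := ℝ)]
  have e1 : inner ℝ (∑ a, w (f a) - w o) (∑ a, w (f a) - w o)
      = inner ℝ (∑ a, v (f a) - v o) (∑ a, v (f a) - v o) := by
    simp only [inner_sub_left, inner_sub_right, sum_inner, inner_sum, h]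
  rw [e1, hs]
  simp

/-- Every vector system has a copy in the fixed Euclidean space. -/
lemma VSys.copy {E : Type*} [NormedAddCommGroup E] [InnerProductSpace ℝ E] {ψ : E}
    {α β : Q → Ans → E} (hV : VSys ψ α β) :
    ∃ (ψ' : FixE) (α' β' : Q → Ans → FixE), VSys ψ' α' β' ∧ vval α' β' = vval α β := by
  set v : Idx → E := fun i => match i with
    | none => ψ
    | some (Sum.inl p) => α p.1 p.2
    | some (Sum.inr p) => β p.1 p.2 with hv
  obtain ⟨w, hw⟩ := exists_copy v
  refine ⟨w none, fun x a => w (some (Sum.inl (x, a))), fun y b => w (some (Sum.inr (y, b))),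
    ⟨?_, ?_, ?_, ?_, ?_, ?_⟩, ?_⟩
  · rw [hw]; exact hV.unit
  · intro x
    exact sum_eq_of_inner hw (fun a => some (Sum.inl (x, a))) none (hV.sumA x)
  · intro y
    exact sum_eq_of_inner hw (fun b => some (Sum.inr (y, b))) none (hV.sumB y)
  · intro x a y b
    rw [hw]; exact hV.pos x a y b
  · intro x a
    rw [hw, hw]; exact hV.leA x a
  · intro y b
    rw [hw, hw]; exact hV.leB y b
  · unfold vval
    simp only [hw, hv]

lemma norm_le_one_of_le {E : Type*} [NormedAddCommGroup E] [InnerProductSpace ℝ E] {ψ x : E}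
    (h1 : inner ℝ ψ ψ = 1) (h2 : inner ℝ x x ≤ inner ℝ ψ x) : ‖x‖ ≤ 1 := by
  have hψ : ‖ψ‖ = 1 := by
    rw [real_inner_self_eq_norm_sq] at h1
    nlinarith [norm_nonneg ψ]
  have h3 := real_inner_le_norm ψ x
  rw [real_inner_self_eq_norm_sq] at h2
  rw [hψ, one_mul] at h3
  by_contra hx
  push Not at hx
  nlinarith

/-- **Compactness.** -/
theorem cpt (h : ∀ (E : Type) [NormedAddCommGroup E] [InnerProductSpace ℝ E] (ψ : E)
    (α β : Q → Ans → E), VSys ψ α β → vval α β < 1 / 3) :
    ∃ c : ℝ, c < 1 / 3 ∧ ∀ (E : Type) [NormedAddCommGroup E] [InnerProductSpace ℝ E] (ψ : E)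
      (α β : Q → Ans → E), VSys ψ α β → vval α β ≤ c := by
  set K : Set (Idx → FixE) :=
    {w | VSys (w none) (fun x a => w (some (Sum.inl (x, a))))
      (fun y b => w (some (Sum.inr (y, b))))} with hK
  have cc : ∀ i, Continuous fun w : Idx → FixE => w i := fun i => continuous_apply i
  have hclosed : IsClosed K := by
    have e : K = {w : Idx → FixE | inner ℝ (w none) (w none) = (1 : ℝ)}
        ∩ {w | ∀ x, ∑ a, w (some (Sum.inl (x, a))) = w none}
        ∩ {w | ∀ y, ∑ b, w (some (Sum.inr (y, b))) = w none}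
        ∩ {w | ∀ x a y b, (0 : ℝ) ≤ inner ℝ (w (some (Sum.inl (x, a)))) (w (some (Sum.inr (y, b))))}
        ∩ {w | ∀ x a, inner ℝ (w (some (Sum.inl (x, a)))) (w (some (Sum.inl (x, a))))
            ≤ (inner ℝ (w none) (w (some (Sum.inl (x, a)))) : ℝ)}
        ∩ {w | ∀ y b, inner ℝ (w (some (Sum.inr (y, b)))) (w (some (Sum.inr (y, b))))
            ≤ (inner ℝ (w none) (w (some (Sum.inr (y, b)))) : ℝ)} := by
      ext w
      constructor
      · intro hp
        exact ⟨⟨⟨⟨⟨hp.unit, hp.sumA⟩, hp.sumB⟩, hp.pos⟩, hp.leA⟩, hp.leB⟩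
      · rintro ⟨⟨⟨⟨⟨h1, h2⟩, h3⟩, h4⟩, h5⟩, h6⟩
        exact ⟨h1, h2, h3, h4, h5, h6⟩
    rw [e]
    simp only [Set.ofPred_forall]
    refine ((((IsClosed.inter ?_ ?_).inter ?_).inter ?_).inter ?_).inter ?_
    · exact isClosed_eq ((cc none).inner (cc none)) continuous_const
    · exact isClosed_iInter fun x => isClosed_eq (continuous_finsetSum _ fun a _ => cc _) (cc none)
    · exact isClosed_iInter fun x => isClosed_eq (continuous_finsetSum _ fun a _ => cc _) (cc none)
    · exact isClosed_iInter fun x => isClosed_iInter fun a => isClosed_iInter fun y =>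
        isClosed_iInter fun b => isClosed_le continuous_const ((cc _).inner (cc _))
    · exact isClosed_iInter fun x => isClosed_iInter fun a =>
        isClosed_le ((cc _).inner (cc _)) ((cc none).inner (cc _))
    · exact isClosed_iInter fun x => isClosed_iInter fun a =>
        isClosed_le ((cc _).inner (cc _)) ((cc none).inner (cc _))
  have hbdd : Bornology.IsBounded K := by
    refine (Metric.isBounded_closedBall (x := (0 : Idx → FixE)) (r := 1)).subset ?_
    intro w hp
    rw [mem_closedBall_zero_iff]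
    refine (pi_norm_le_iff_of_nonneg zero_le_one).2 fun i => ?_
    rcases i with _ | ⟨x, a⟩ | ⟨y, b⟩
    · exact norm_le_one_of_le hp.unit le_rfl
    · exact norm_le_one_of_le hp.unit (hp.leA x a)
    · exact norm_le_one_of_le hp.unit (hp.leB y b)
  have hcpt : IsCompact K := Metric.isCompact_of_isClosed_isBounded hclosed hbdd
  have hcont : Continuous fun w : Idx → FixE =>
      vval (fun x a => w (some (Sum.inl (x, a)))) (fun y b => w (some (Sum.inr (y, b)))) := by
    unfold vval
    refine continuous_const.mul (continuous_finsetSum _ fun x _ => continuous_finsetSum _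
      fun y _ => continuous_finsetSum _ fun a _ => continuous_finsetSum _ fun b _ => ?_)
    by_cases hw : Wins a b x y
    · simp only [if_pos hw]
      exact (cc _).inner (cc _)
    · simp only [if_neg hw]
      exact continuous_const
  have hmem : ∀ (ψ' : FixE) (α' β' : Q → Ans → FixE), VSys ψ' α' β' →
      ∃ w ∈ K, vval (fun x a => w (some (Sum.inl (x, a)))) (fun y b => w (some (Sum.inr (y, b))))
        = vval α' β' := by
    intro ψ' α' β' h1
    exact ⟨fun i => match i with
      | none => ψ'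
      | some (Sum.inl p) => α' p.1 p.2
      | some (Sum.inr p) => β' p.1 p.2, h1, rfl⟩
  rcases K.eq_empty_or_nonempty with hemp | hne
  · refine ⟨0, by norm_num, ?_⟩
    intro E _ _ ψ α β hV
    obtain ⟨ψ', α', β', h1, -⟩ := hV.copy
    obtain ⟨w, hw, -⟩ := hmem _ _ _ h1
    rw [hemp] at hw
    exact absurd hw (Set.notMem_empty _)
  · obtain ⟨p, hp, hmax⟩ := hcpt.exists_isMaxOn hne hcont.continuousOn
    refine ⟨_, h FixE _ _ _ hp, ?_⟩
    intro E _ _ ψ α β hV
    obtain ⟨ψ', α', β', h1, h2⟩ := hV.copy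
    obtain ⟨w, hw, h3⟩ := hmem _ _ _ h1
    rw [← h2, ← h3]
    exact hmax hw

end Pool.Agent.H20F
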