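import Mathlib

/-!
# Threefold Feige's game: definitions
-/

set_option autoImplicit false

namespace Pool.Agent.H20F

open Matrix Kronecker ComplexOrder

/-- The questions of the threefold game: `{0,1}³`. -/
abbrev Q := Bool × Bool × Bool

/-- The answers of the threefold game: `{0,1,⊥}³` (`none` is `⊥`). -/
abbrev Ans := Option Bool × Option Bool × Option Bool

/-- The predicate of Feige's game: `(a,b) = (⊥,x)` or `(a,b) = (y,⊥)`. -/
def Win1 (a b : Option Bool) (x y : Bool) : Prop := (a = none ∧ b = some x) ∨ (a = some y ∧ b = none)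

instance (a b : Option Bool) (x y : Bool) : Decidable (Win1 a b x y) := by
  unfold Win1; infer_instance

/-- The predicate of the threefold game: all three coordinates are won. -/
def Wins (a b : Ans) (x y : Q) : Prop :=
  Win1 a.1 b.1 x.1 y.1 ∧ Win1 a.2.1 b.2.1 x.2.1 y.2.1 ∧ Win1 a.2.2 b.2.2 x.2.2 y.2.2

instance (a b : Ans) (x y : Q) : Decidable (Wins a b x y) := by
  unfold Wins; infer_instance

/-- A finite-dimensional quantum strategy for the threefold game: a unit vector `ψ` of
`ℂ^m ⊗ ℂ^n`, for every question `x` of Alice a POVM `P x` on `ℂ^m`, and for every question `y` of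
Bob a POVM `R y` on `ℂ^n`, both indexed by the answers. -/
structure Strategy where
  /-- dimension of Alice's space -/
  m : ℕ
  /-- dimension of Bob's space -/
  n : ℕ
  /-- the state -/
  ψ : Fin m × Fin n → ℂ
  /-- the state is a unit vector -/
  unit : ∑ i, ‖ψ i‖ ^ 2 = 1
  /-- Alice's measurements -/
  P : Q → Ans → Matrix (Fin m) (Fin m) ℂ
  /-- Bob's measurements -/
  R : Q → Ans → Matrix (Fin n) (Fin n) ℂ
  P_pos : ∀ x a, (P x a).PosSemidef
  R_pos : ∀ y b, (R y b).PosSemidef
  P_sum : ∀ x, ∑ a, P x a = 1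
  R_sum : ∀ y, ∑ b, R y b = 1

/-- The correlation `p(a,b|x,y) = ⟨ψ, (P^x_a ⊗ R^y_b) ψ⟩`. -/
noncomputable def Strategy.corr (s : Strategy) (a b : Ans) (x y : Q) : ℝ :=
  (star s.ψ ⬝ᵥ ((s.P x a ⊗ₖ s.R y b) *ᵥ s.ψ)).re

/-- The probability to win the threefold game; the questions are uniform on `{0,1}³ × {0,1}³`. -/
noncomputable def Strategy.winProb (s : Strategy) : ℝ :=
  1 / 64 * ∑ x : Q, ∑ y : Q, ∑ a : Ans, ∑ b : Ans, if Wins a b x y then s.corr a b x y else 0

/-- A vector system: what remains of a strategy in the proof. -/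
structure VSys {E : Type*} [NormedAddCommGroup E] [InnerProductSpace ℝ E]
    (ψ : E) (α β : Q → Ans → E) : Prop where
  unit : inner ℝ ψ ψ = 1
  sumA : ∀ x, ∑ a, α x a = ψ
  sumB : ∀ y, ∑ b, β y b = ψ
  pos : ∀ x a y b, 0 ≤ inner ℝ (α x a) (β y b)
  leA : ∀ x a, inner ℝ (α x a) (α x a) ≤ inner ℝ ψ (α x a)
  leB : ∀ y b, inner ℝ (β y b) (β y b) ≤ inner ℝ ψ (β y b)

/-- the value of a vector system -/
noncomputable def vval {E : Type*} [NormedAddCommGroup E] [InnerProductSpace ℝ E]
    (α β : Q → Ans → E) : ℝ :=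
  1 / 64 * ∑ x : Q, ∑ y : Q, ∑ a : Ans, ∑ b : Ans,
    if Wins a b x y then inner ℝ (α x a) (β y b) else 0

end Pool.Agent.H20F
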