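import Pool.Agent.H20F.Defs

/-!
# Threefold Feige's game: the linear programming step
-/

set_option autoImplicit false

namespace Pool.Agent.H20F

/-- the sums over the events that are consistent with a question of Alice -/
def SX (f0 f1 f2 f01 f02 f12 : Bool → Bool → Bool → ℝ) (x0 x1 x2 : Bool) : ℝ :=
  (f0 x0 true true + f0 x0 true false + f0 x0 false true + f0 x0 false false) +
  (f1 true x1 true + f1 true x1 false + f1 false x1 true + f1 false x1 false) +
  (f2 true true x2 + f2 true false x2 + f2 false true x2 + f2 false false x2) +
  (f01 x0 x1 true + f01 x0 x1 false) + (f02 x0 true x2 + f02 x0 false x2) +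
  (f12 true x1 x2 + f12 false x1 x2)

/-- the sums over the events that are consistent with a question of Bob -/
def SY (f0 f1 f2 f01 f02 f12 : Bool → Bool → Bool → ℝ) (y0 y1 y2 : Bool) : ℝ :=
  (f0 true y1 y2 + f0 false y1 y2) + (f1 y0 true y2 + f1 y0 false y2) +
  (f2 y0 y1 true + f2 y0 y1 false) +
  (f01 true true y2 + f01 true false y2 + f01 false true y2 + f01 false false y2) +
  (f02 true y1 true + f02 true y1 false + f02 false y1 true + f02 false y1 false) +
  (f12 y0 true true + f12 y0 true false + f12 y0 false true + f12 y0 false false)

theorem lp_step (f0 f1 f2 f01 f02 f12 : Bool → Bool → Bool → ℝ) (n : ℝ)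
    (h0 : ∀ a b c, 0 ≤ f0 a b c) (h1 : ∀ a b c, 0 ≤ f1 a b c) (h2 : ∀ a b c, 0 ≤ f2 a b c)
    (h01 : ∀ a b c, 0 ≤ f01 a b c) (h02 : ∀ a b c, 0 ≤ f02 a b c) (h12 : ∀ a b c, 0 ≤ f12 a b c)
    (hx : ∀ a b c, SX f0 f1 f2 f01 f02 f12 a b c = n)
    (hy : ∀ a b c, SY f0 f1 f2 f01 f02 f12 a b c = n)
    (w0 w1 w2 : Bool) (hw : f01 w0 w1 w2 = n ∨ f02 w0 w1 w2 = n ∨ f12 w0 w1 w2 = n) : n ≤ 0 := by
  unfold SX at hx
  unfold SY at hy
  have A1 := hx true true true
  have A2 := hx true true false
  have A3 := hx true false true
  have A4 := hx true false false
  have A5 := hx false true true
  have A6 := hx false true false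
  have A7 := hx false false true
  have A8 := hx false false false
  have B1 := hy true true true
  have B2 := hy true true false
  have B3 := hy true false true
  have B4 := hy true false false
  have B5 := hy false true true
  have B6 := hy false true false
  have B7 := hy false false true
  have B8 := hy false false false
  have C1 := h0 true true true
  have C2 := h0 true true false
  have C3 := h0 true false true
  have C4 := h0 true false false
  have C5 := h0 false true true
  have C6 := h0 false true false
  have C7 := h0 false false true
  have C8 := h0 false false false
  have D1 := h1 true true true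
  have D2 := h1 true true false
  have D3 := h1 true false true
  have D4 := h1 true false false
  have D5 := h1 false true true
  have D6 := h1 false true false
  have D7 := h1 false false true
  have D8 := h1 false false false
  have E1 := h2 true true true
  have E2 := h2 true true false
  have E3 := h2 true false true
  have E4 := h2 true false false
  have E5 := h2 false true true
  have E6 := h2 false true false
  have E7 := h2 false false true
  have E8 := h2 false false false
  have F1 := h01 true true true
  have F2 := h01 true true false
  have F3 := h01 true false true
  have F4 := h01 true false false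
  have F5 := h01 false true true
  have F6 := h01 false true false
  have F7 := h01 false false true
  have F8 := h01 false false false
  have G1 := h02 true true true
  have G2 := h02 true true false
  have G3 := h02 true false true
  have G4 := h02 true false false
  have G5 := h02 false true true
  have G6 := h02 false true false
  have G7 := h02 false false true
  have G8 := h02 false false false
  have H1 := h12 true true true
  have H2 := h12 true true false
  have H3 := h12 true false true
  have H4 := h12 true false false
  have H5 := h12 false true true
  have H6 := h12 false true false
  have H7 := h12 false false true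
  have H8 := h12 false false false
  clear hx hy h0 h1 h2 h01 h02 h12
  rcases hw with hw | hw | hw <;> cases w0 <;> cases w1 <;> cases w2 <;> linarith

end Pool.Agent.H20F
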