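import Pool.Agent.H20F.Game
import Pool.Agent.H20F.LP

/-!
# Threefold Feige's game: no vector system has the value `1/3`
-/

set_option autoImplicit false

open Finset

namespace Pool.Agent.H20F

/-- the weight `1 - |s| / 3` of a pattern -/
noncomputable def wt (s : Q) : ℝ :=
  1 - ((if s.1 then 1 else 0) + (if s.2.1 then 1 else 0) + (if s.2.2 then 1 else 0)) / 3

theorem budgetA (A : Ans → ℝ) :
    (∑ y : Q, ∑ s : Q, wt s * A (aS s y)) + 1 / 3 * (∑ u : Q, A (some u.1, some u.2.1, some u.2.2)) +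
      4 / 3 * A (none, none, none) = 4 / 3 * ∑ a : Ans, A a := by
  simp only [Fintype.sum_prod_type, Fintype.sum_bool, Fintype.sum_option, aS, wt, if_true,
    Bool.false_eq_true, if_false]
  ring

theorem budgetB (B : Ans → ℝ) :
    (∑ x : Q, ∑ s : Q, (1 - wt s) * B (bS s x)) +
      1 / 3 * (∑ u : Q, B (some u.1, some u.2.1, some u.2.2)) +
      4 / 3 * B (none, none, none) = 4 / 3 * ∑ b : Ans, B b := by
  simp only [Fintype.sum_prod_type, Fintype.sum_bool, Fintype.sum_option, bS, wt, if_true,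
    Bool.false_eq_true, if_false]
  ring

theorem zero_of_sum3 (f : Q → Q → Q → ℝ) (h0 : ∀ x y s, 0 ≤ f x y s)
    (h : ∑ x, ∑ y, ∑ s, f x y s ≤ 0) (x y s : Q) : f x y s = 0 := by
  have h1 : ∑ x, ∑ y, ∑ s, f x y s = 0 := le_antisymm h
    (Finset.sum_nonneg fun x _ => Finset.sum_nonneg fun y _ => Finset.sum_nonneg fun s _ => h0 x y s)
  rw [Finset.sum_eq_zero_iff_of_nonneg (fun x _ => Finset.sum_nonneg fun y _ =>
    Finset.sum_nonneg fun s _ => h0 x y s)] at h1
  have h2 := h1 x (Finset.mem_univ x)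
  rw [Finset.sum_eq_zero_iff_of_nonneg (fun y _ => Finset.sum_nonneg fun s _ => h0 x y s)] at h2
  have h3 := h2 y (Finset.mem_univ y)
  rw [Finset.sum_eq_zero_iff_of_nonneg (fun s _ => h0 x y s)] at h3
  exact h3 s (Finset.mem_univ s)

variable {E : Type*} [NormedAddCommGroup E] [InnerProductSpace ℝ E] {ψ : E} {α β : Q → Ans → E}

theorem VSys.A_nonneg (h : VSys ψ α β) (x : Q) (a : Ans) : 0 ≤ inner ℝ ψ (α x a) :=
  le_trans real_inner_self_nonneg (h.leA x a)

theorem VSys.B_nonneg (h : VSys ψ α β) (y : Q) (b : Ans) : 0 ≤ inner ℝ ψ (β y b) :=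
  le_trans real_inner_self_nonneg (h.leB y b)

theorem VSys.p_le_A (h : VSys ψ α β) (x : Q) (a : Ans) (y : Q) (b : Ans) :
    inner ℝ (α x a) (β y b) ≤ inner ℝ ψ (α x a) := by
  rw [real_inner_comm (α x a) ψ, ← h.sumB y, inner_sum]
  exact Finset.single_le_sum (f := fun b => inner ℝ (α x a) (β y b))
    (fun b _ => h.pos x a y b) (Finset.mem_univ b)

theorem VSys.p_le_B (h : VSys ψ α β) (x : Q) (a : Ans) (y : Q) (b : Ans) :
    inner ℝ (α x a) (β y b) ≤ inner ℝ ψ (β y b) := by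
  rw [← h.sumA x, sum_inner]
  exact Finset.single_le_sum (f := fun a => inner ℝ (α x a) (β y b))
    (fun a _ => h.pos x a y b) (Finset.mem_univ a)

theorem VSys.sumA' (h : VSys ψ α β) (x : Q) : ∑ a, inner ℝ ψ (α x a) = 1 := by
  rw [← inner_sum, h.sumA x, h.unit]

theorem VSys.sumB' (h : VSys ψ α β) (y : Q) : ∑ b, inner ℝ ψ (β y b) = 1 := by
  rw [← inner_sum, h.sumB y, h.unit]

theorem wt_nonneg (s : Q) : 0 ≤ wt s := by
  unfold wt
  obtain ⟨a, b, c⟩ := s
  cases a <;> cases b <;> cases c <;> norm_num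

theorem wt_le (s : Q) : wt s ≤ 1 := by
  unfold wt
  obtain ⟨a, b, c⟩ := s
  cases a <;> cases b <;> cases c <;> norm_num

/-- In a vector system of value at least `1/3` everything is tight. -/
theorem VSys.tight (h : VSys ψ α β) (hv : 1 / 3 ≤ vval α β) :
    (∀ x y s, wt s * (inner ℝ ψ (α x (aS s y)) - inner ℝ (α x (aS s y)) (β y (bS s x))) +
      (1 - wt s) * (inner ℝ ψ (β y (bS s x)) - inner ℝ (α x (aS s y)) (β y (bS s x))) = 0) ∧
    (∀ (x u : Q), inner ℝ ψ (α x (some u.1, some u.2.1, some u.2.2)) = 0) ∧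
    (∀ x, inner ℝ ψ (α x (none, none, none)) = 0) ∧
    (∀ (y u : Q), inner ℝ ψ (β y (some u.1, some u.2.1, some u.2.2)) = 0) ∧
    (∀ y, inner ℝ ψ (β y (none, none, none)) = 0) := by
  have e1 : ∑ x : Q, ∑ y : Q, ∑ s : Q, inner ℝ (α x (aS s y)) (β y (bS s x)) = 64 * vval α β := by
    unfold vval
    rw [← mul_assoc]
    norm_num
    refine Finset.sum_congr rfl fun x _ => Finset.sum_congr rfl fun y _ => ?_
    exact (win_sum x y fun a b => inner ℝ (α x a) (β y b)).symm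
  have e2 : ∑ x : Q, ∑ y : Q, ∑ s : Q, wt s * inner ℝ ψ (α x (aS s y)) +
      1 / 3 * (∑ x : Q, ∑ u : Q, inner ℝ ψ (α x (some u.1, some u.2.1, some u.2.2))) +
      4 / 3 * (∑ x : Q, inner ℝ ψ (α x (none, none, none))) = 32 / 3 := by
    rw [Finset.mul_sum, Finset.mul_sum, ← Finset.sum_add_distrib, ← Finset.sum_add_distrib]
    rw [Finset.sum_congr rfl fun x _ => (budgetA fun a => inner ℝ ψ (α x a)).trans
      (by rw [h.sumA' x])]
    simp
    norm_num
  have e3 : ∑ x : Q, ∑ y : Q, ∑ s : Q, (1 - wt s) * inner ℝ ψ (β y (bS s x)) +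
      1 / 3 * (∑ y : Q, ∑ u : Q, inner ℝ ψ (β y (some u.1, some u.2.1, some u.2.2))) +
      4 / 3 * (∑ y : Q, inner ℝ ψ (β y (none, none, none))) = 32 / 3 := by
    rw [Finset.sum_comm, Finset.mul_sum, Finset.mul_sum, ← Finset.sum_add_distrib,
      ← Finset.sum_add_distrib]
    rw [Finset.sum_congr rfl fun y _ => (budgetB fun b => inner ℝ ψ (β y b)).trans
      (by rw [h.sumB' y])]
    simp
    norm_num
  set F : Q → Q → Q → ℝ := fun x y s =>
    wt s * (inner ℝ ψ (α x (aS s y)) - inner ℝ (α x (aS s y)) (β y (bS s x))) +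
      (1 - wt s) * (inner ℝ ψ (β y (bS s x)) - inner ℝ (α x (aS s y)) (β y (bS s x))) with hF
  have F0 : ∀ x y s, 0 ≤ F x y s := by
    intro x y s
    have h1 := h.p_le_A x (aS s y) y (bS s x)
    have h2 := h.p_le_B x (aS s y) y (bS s x)
    have h3 := wt_nonneg s
    have h4 := wt_le s
    exact add_nonneg (mul_nonneg h3 (by linarith)) (mul_nonneg (by linarith) (by linarith))
  have e4 : ∑ x, ∑ y, ∑ s, F x y s = ∑ x : Q, ∑ y : Q, ∑ s : Q, wt s * inner ℝ ψ (α x (aS s y)) +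
      ∑ x : Q, ∑ y : Q, ∑ s : Q, (1 - wt s) * inner ℝ ψ (β y (bS s x)) -
      ∑ x : Q, ∑ y : Q, ∑ s : Q, inner ℝ (α x (aS s y)) (β y (bS s x)) := by
    rw [← Finset.sum_add_distrib, ← Finset.sum_sub_distrib]
    refine Finset.sum_congr rfl fun x _ => ?_
    rw [← Finset.sum_add_distrib, ← Finset.sum_sub_distrib]
    refine Finset.sum_congr rfl fun y _ => ?_
    rw [← Finset.sum_add_distrib, ← Finset.sum_sub_distrib]
    refine Finset.sum_congr rfl fun s _ => ?_
    rw [hF]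
    ring
  have n1 : 0 ≤ ∑ x : Q, ∑ u : Q, inner ℝ ψ (α x (some u.1, some u.2.1, some u.2.2)) :=
    Finset.sum_nonneg fun x _ => Finset.sum_nonneg fun u _ => h.A_nonneg _ _
  have n2 : 0 ≤ ∑ x : Q, inner ℝ ψ (α x (none, none, none)) :=
    Finset.sum_nonneg fun x _ => h.A_nonneg _ _
  have n3 : 0 ≤ ∑ y : Q, ∑ u : Q, inner ℝ ψ (β y (some u.1, some u.2.1, some u.2.2)) :=
    Finset.sum_nonneg fun x _ => Finset.sum_nonneg fun u _ => h.B_nonneg _ _
  have n4 : 0 ≤ ∑ y : Q, inner ℝ ψ (β y (none, none, none)) :=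
    Finset.sum_nonneg fun x _ => h.B_nonneg _ _
  have n5 : 0 ≤ ∑ x, ∑ y, ∑ s, F x y s :=
    Finset.sum_nonneg fun x _ => Finset.sum_nonneg fun y _ => Finset.sum_nonneg fun s _ => F0 x y s
  have m1 : ∑ x : Q, ∑ u : Q, inner ℝ ψ (α x (some u.1, some u.2.1, some u.2.2)) = 0 := by
    linarith
  have m2 : ∑ x : Q, inner ℝ ψ (α x (none, none, none)) = 0 := by linarith
  have m3 : ∑ y : Q, ∑ u : Q, inner ℝ ψ (β y (some u.1, some u.2.1, some u.2.2)) = 0 := by
    linarith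
  have m4 : ∑ y : Q, inner ℝ ψ (β y (none, none, none)) = 0 := by linarith
  have m5 : ∑ x, ∑ y, ∑ s, F x y s ≤ 0 := by linarith
  refine ⟨fun x y s => zero_of_sum3 F F0 m5 x y s, ?_, ?_, ?_, ?_⟩
  · intro x u
    rw [Finset.sum_eq_zero_iff_of_nonneg (fun x _ => Finset.sum_nonneg fun u _ =>
      h.A_nonneg _ _)] at m1
    have := m1 x (Finset.mem_univ x)
    rw [Finset.sum_eq_zero_iff_of_nonneg (fun u _ => h.A_nonneg _ _)] at this
    exact this u (Finset.mem_univ u)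
  · intro x
    rw [Finset.sum_eq_zero_iff_of_nonneg (fun x _ => h.A_nonneg _ _)] at m2
    exact m2 x (Finset.mem_univ x)
  · intro x u
    rw [Finset.sum_eq_zero_iff_of_nonneg (fun x _ => Finset.sum_nonneg fun u _ =>
      h.B_nonneg _ _)] at m3
    have := m3 x (Finset.mem_univ x)
    rw [Finset.sum_eq_zero_iff_of_nonneg (fun u _ => h.B_nonneg _ _)] at this
    exact this u (Finset.mem_univ u)
  · intro x
    rw [Finset.sum_eq_zero_iff_of_nonneg (fun x _ => h.B_nonneg _ _)] at m4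
    exact m4 x (Finset.mem_univ x)

end Pool.Agent.H20F
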