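import Pool.Agent.H20F.Defs

/-!
# Threefold Feige's game: the winning pairs of answers
-/

set_option autoImplicit false

open Finset

namespace Pool.Agent.H20F

/-- Alice's answer with `⊥` on `s` and the correct guesses of `y` elsewhere -/
def aS (s y : Q) : Ans :=
  (if s.1 then none else some y.1, if s.2.1 then none else some y.2.1,
    if s.2.2 then none else some y.2.2)

/-- Bob's answer with the correct guesses of `x` on `s` and `⊥` elsewhere -/
def bS (s x : Q) : Ans :=
  (if s.1 then some x.1 else none, if s.2.1 then some x.2.1 else none,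
    if s.2.2 then some x.2.2 else none)

theorem win1_iff (a b : Option Bool) (x y : Bool) : Win1 a b x y ↔
    ∃ s : Bool, a = (if s then none else some y) ∧ b = (if s then some x else none) := by
  unfold Win1
  constructor
  · rintro (⟨h1, h2⟩ | ⟨h1, h2⟩)
    · exact ⟨true, by simpa using h1, by simpa using h2⟩
    · exact ⟨false, by simpa using h1, by simpa using h2⟩
  · rintro ⟨s, h1, h2⟩
    cases s
    · right; simpa using ⟨h1, h2⟩
    · left; simpa using ⟨h1, h2⟩

theorem win_iff (a b : Ans) (x y : Q) : Wins a b x y ↔ ∃ s : Q, a = aS s y ∧ b = bS s x := by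
  unfold Wins aS bS
  rw [win1_iff, win1_iff, win1_iff]
  constructor
  · rintro ⟨⟨s1, h1, h2⟩, ⟨s2, h3, h4⟩, s3, h5, h6⟩
    refine ⟨(s1, s2, s3), ?_, ?_⟩
    · exact Prod.ext h1 (Prod.ext h3 h5)
    · exact Prod.ext h2 (Prod.ext h4 h6)
  · rintro ⟨⟨s1, s2, s3⟩, rfl, rfl⟩
    exact ⟨⟨s1, rfl, rfl⟩, ⟨s2, rfl, rfl⟩, s3, rfl, rfl⟩

theorem ite_inj {s t y : Bool} (h : (if s then none else some y : Option Bool) =
    if t then none else some y) : s = t := by
  cases s <;> cases t <;> simp_all

theorem aS_inj {s t y : Q} (h : aS s y = aS t y) : s = t := by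
  unfold aS at h
  rw [Prod.mk.injEq, Prod.mk.injEq] at h
  exact Prod.ext (ite_inj h.1) (Prod.ext (ite_inj h.2.1) (ite_inj h.2.2))

theorem win_sum (x y : Q) (F : Ans → Ans → ℝ) :
    (∑ a : Ans, ∑ b : Ans, if Wins a b x y then F a b else 0) = ∑ s : Q, F (aS s y) (bS s x) := by
  classical
  rw [← Fintype.sum_prod_type' (f := fun a b => if Wins a b x y then F a b else 0)]
  rw [← Finset.sum_filter]
  symm
  apply Finset.sum_bij (fun (s : Q) _ => (aS s y, bS s x))
  · intro s _
    rw [Finset.mem_filter]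
    exact ⟨Finset.mem_univ _, (win_iff _ _ _ _).2 ⟨s, rfl, rfl⟩⟩
  · intro s _ t _ h
    rw [Prod.mk.injEq] at h
    exact aS_inj h.1
  · rintro ⟨a, b⟩ hab
    rw [Finset.mem_filter] at hab
    obtain ⟨s, h1, h2⟩ := (win_iff _ _ _ _).1 hab.2
    exact ⟨s, Finset.mem_univ _, by rw [Prod.mk.injEq]; exact ⟨h1.symm, h2.symm⟩⟩
  · intro s _
    rfl

end Pool.Agent.H20F
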