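import Pool.Agent.H20F.Exact

/-!
# Threefold Feige's game: the value of a vector system is less than `1/3`
-/

set_option autoImplicit false

open Finset

namespace Pool.Agent.H20F

variable {E : Type*} [NormedAddCommGroup E] [InnerProductSpace ℝ E] {ψ : E} {α β : Q → Ans → E}

theorem eq_zero_of_inner_le {v : E} (h : inner ℝ v v ≤ 0) : v = 0 :=
  inner_self_eq_zero.1 (le_antisymm h real_inner_self_nonneg)

/-- a contradiction from the counting of the events of the patterns of size one -/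
theorem count_step (f0 f1 f2 : Bool → Bool → Bool → ℝ)
    (hx : ∀ a b c, SX f0 f1 f2 (fun _ _ _ => 0) (fun _ _ _ => 0) (fun _ _ _ => 0) a b c = 1)
    (hy : ∀ a b c, SY f0 f1 f2 (fun _ _ _ => 0) (fun _ _ _ => 0) (fun _ _ _ => 0) a b c = 1) :
    False := by
  unfold SX at hx
  unfold SY at hy
  have A1 := hx true true true
  have A2 := hx true true false
  have A3 := hx true false true
  have A4 := hx true false false
  have A5 := hx false true true
  have A6 := hx false true false
  have A7 := hx false false true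
  have A8 := hx false false false
  have B1 := hy true true true
  have B2 := hy true true false
  have B3 := hy true false true
  have B4 := hy true false false
  have B5 := hy false true true
  have B6 := hy false true false
  have B7 := hy false false true
  have B8 := hy false false false
  clear hx hy
  linarith

theorem VSys.key (h : VSys ψ α β)
    (ht : ∀ x y s, wt s * (inner ℝ ψ (α x (aS s y)) - inner ℝ (α x (aS s y)) (β y (bS s x))) +
      (1 - wt s) * (inner ℝ ψ (β y (bS s x)) - inner ℝ (α x (aS s y)) (β y (bS s x))) = 0)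
    (x y s : Q) (h0 : 0 < wt s) (h1 : wt s < 1) :
    inner ℝ (α x (aS s y)) (β y (bS s x)) = inner ℝ ψ (α x (aS s y)) ∧
      α x (aS s y) = β y (bS s x) := by
  have t := ht x y s
  have hA := h.p_le_A x (aS s y) y (bS s x)
  have hB := h.p_le_B x (aS s y) y (bS s x)
  have m1 : 0 ≤ wt s * (inner ℝ ψ (α x (aS s y)) - inner ℝ (α x (aS s y)) (β y (bS s x))) :=
    mul_nonneg h0.le (by linarith)
  have m2 : 0 ≤ (1 - wt s) * (inner ℝ ψ (β y (bS s x)) -
      inner ℝ (α x (aS s y)) (β y (bS s x))) := mul_nonneg (by linarith) (by linarith)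
  have m3 : wt s * (inner ℝ ψ (α x (aS s y)) - inner ℝ (α x (aS s y)) (β y (bS s x))) = 0 := by
    linarith
  have m4 : (1 - wt s) * (inner ℝ ψ (β y (bS s x)) -
      inner ℝ (α x (aS s y)) (β y (bS s x))) = 0 := by linarith
  have e1 := (mul_eq_zero.1 m3).resolve_left h0.ne'
  have e2 := (mul_eq_zero.1 m4).resolve_left (by linarith)
  refine ⟨by linarith, ?_⟩
  have q1 := h.leA x (aS s y)
  have q2 := h.leB y (bS s x)
  have q3 : inner ℝ (α x (aS s y) - β y (bS s x)) (α x (aS s y) - β y (bS s x)) =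
      inner ℝ (α x (aS s y)) (α x (aS s y)) - 2 * inner ℝ (α x (aS s y)) (β y (bS s x)) +
        inner ℝ (β y (bS s x)) (β y (bS s x)) := by
    rw [inner_sub_left, inner_sub_right, inner_sub_right,
      real_inner_comm (α x (aS s y)) (β y (bS s x))]
    ring
  have q4 : α x (aS s y) - β y (bS s x) = 0 := eq_zero_of_inner_le (by linarith)
  exact sub_eq_zero.1 q4

theorem VSys.lt (h : VSys ψ α β) : vval α β < 1 / 3 := by
  by_contra hv
  push Not at hv
  obtain ⟨t, a3, a0, b3, b0⟩ := h.tight hv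
  have key := h.key t
  have zA3 : ∀ (x : Q) (a b c : Bool), α x (some a, some b, some c) = 0 := fun x a b c =>
    eq_zero_of_inner_le ((h.leA _ _).trans (a3 x (a, b, c)).le)
  have zA0 : ∀ x : Q, α x (none, none, none) = 0 := fun x =>
    eq_zero_of_inner_le ((h.leA _ _).trans (a0 x).le)
  have zB3 : ∀ (x : Q) (a b c : Bool), β x (some a, some b, some c) = 0 := fun x a b c =>
    eq_zero_of_inner_le ((h.leB _ _).trans (b3 x (a, b, c)).le)
  have zB0 : ∀ x : Q, β x (none, none, none) = 0 := fun x =>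
    eq_zero_of_inner_le ((h.leB _ _).trans (b0 x).le)
  -- the six kinds of events
  have K0 : ∀ x0 x1 x2 y0 y1 y2 : Bool, inner ℝ (α (x0, x1, x2) (none, some y1, some y2))
      (β (y0, y1, y2) (some x0, none, none)) = inner ℝ ψ (α (x0, x1, x2) (none, some y1, some y2)) ∧
      α (x0, x1, x2) (none, some y1, some y2) = β (y0, y1, y2) (some x0, none, none) := by
    intro x0 x1 x2 y0 y1 y2
    simpa [aS, bS] using key (x0, x1, x2) (y0, y1, y2) (true, false, false)
      (by norm_num [wt]) (by norm_num [wt])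
  have K1 : ∀ x0 x1 x2 y0 y1 y2 : Bool, inner ℝ (α (x0, x1, x2) (some y0, none, some y2))
      (β (y0, y1, y2) (none, some x1, none)) = inner ℝ ψ (α (x0, x1, x2) (some y0, none, some y2)) ∧
      α (x0, x1, x2) (some y0, none, some y2) = β (y0, y1, y2) (none, some x1, none) := by
    intro x0 x1 x2 y0 y1 y2
    simpa [aS, bS] using key (x0, x1, x2) (y0, y1, y2) (false, true, false)
      (by norm_num [wt]) (by norm_num [wt])
  have K2 : ∀ x0 x1 x2 y0 y1 y2 : Bool, inner ℝ (α (x0, x1, x2) (some y0, some y1, none))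
      (β (y0, y1, y2) (none, none, some x2)) = inner ℝ ψ (α (x0, x1, x2) (some y0, some y1, none)) ∧
      α (x0, x1, x2) (some y0, some y1, none) = β (y0, y1, y2) (none, none, some x2) := by
    intro x0 x1 x2 y0 y1 y2
    simpa [aS, bS] using key (x0, x1, x2) (y0, y1, y2) (false, false, true)
      (by norm_num [wt]) (by norm_num [wt])
  have K01 : ∀ x0 x1 x2 y0 y1 y2 : Bool, inner ℝ (α (x0, x1, x2) (none, none, some y2))
      (β (y0, y1, y2) (some x0, some x1, none)) = inner ℝ ψ (α (x0, x1, x2) (none, none, some y2)) ∧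
      α (x0, x1, x2) (none, none, some y2) = β (y0, y1, y2) (some x0, some x1, none) := by
    intro x0 x1 x2 y0 y1 y2
    simpa [aS, bS] using key (x0, x1, x2) (y0, y1, y2) (true, true, false)
      (by norm_num [wt]) (by norm_num [wt])
  have K02 : ∀ x0 x1 x2 y0 y1 y2 : Bool, inner ℝ (α (x0, x1, x2) (none, some y1, none))
      (β (y0, y1, y2) (some x0, none, some x2)) = inner ℝ ψ (α (x0, x1, x2) (none, some y1, none)) ∧
      α (x0, x1, x2) (none, some y1, none) = β (y0, y1, y2) (some x0, none, some x2) := by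
    intro x0 x1 x2 y0 y1 y2
    simpa [aS, bS] using key (x0, x1, x2) (y0, y1, y2) (true, false, true)
      (by norm_num [wt]) (by norm_num [wt])
  have K12 : ∀ x0 x1 x2 y0 y1 y2 : Bool, inner ℝ (α (x0, x1, x2) (some y0, none, none))
      (β (y0, y1, y2) (none, some x1, some x2)) = inner ℝ ψ (α (x0, x1, x2) (some y0, none, none)) ∧
      α (x0, x1, x2) (some y0, none, none) = β (y0, y1, y2) (none, some x1, some x2) := by
    intro x0 x1 x2 y0 y1 y2
    simpa [aS, bS] using key (x0, x1, x2) (y0, y1, y2) (false, true, true)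
      (by norm_num [wt]) (by norm_num [wt])
  clear key t hv
  obtain ⟨v0, hv0⟩ : ∃ v : Bool → Bool → Bool → E, v = fun a b c =>
    α (a, b, c) (none, some b, some c) := ⟨_, rfl⟩
  obtain ⟨v1, hv1⟩ : ∃ v : Bool → Bool → Bool → E, v = fun a b c =>
    α (a, b, c) (some a, none, some c) := ⟨_, rfl⟩
  obtain ⟨v2, hv2⟩ : ∃ v : Bool → Bool → Bool → E, v = fun a b c =>
    α (a, b, c) (some a, some b, none) := ⟨_, rfl⟩
  obtain ⟨v01, hv01⟩ : ∃ v : Bool → Bool → Bool → E, v = fun a b c =>
    α (a, b, c) (none, none, some c) := ⟨_, rfl⟩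
  obtain ⟨v02, hv02⟩ : ∃ v : Bool → Bool → Bool → E, v = fun a b c =>
    α (a, b, c) (none, some b, none) := ⟨_, rfl⟩
  obtain ⟨v12, hv12⟩ : ∃ v : Bool → Bool → Bool → E, v = fun a b c =>
    α (a, b, c) (some a, none, none) := ⟨_, rfl⟩
  have A0 : ∀ x0 x1 x2 y1 y2 : Bool, α (x0, x1, x2) (none, some y1, some y2) = v0 x0 y1 y2 := by
    intro x0 x1 x2 y1 y2
    rw [hv0, (K0 x0 x1 x2 x0 y1 y2).2]
    exact (K0 x0 y1 y2 x0 y1 y2).2.symm
  have A1 : ∀ x0 x1 x2 y0 y2 : Bool, α (x0, x1, x2) (some y0, none, some y2) = v1 y0 x1 y2 := by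
    intro x0 x1 x2 y0 y2
    rw [hv1, (K1 x0 x1 x2 y0 x1 y2).2]
    exact (K1 y0 x1 y2 y0 x1 y2).2.symm
  have A2 : ∀ x0 x1 x2 y0 y1 : Bool, α (x0, x1, x2) (some y0, some y1, none) = v2 y0 y1 x2 := by
    intro x0 x1 x2 y0 y1
    rw [hv2, (K2 x0 x1 x2 y0 y1 x2).2]
    exact (K2 y0 y1 x2 y0 y1 x2).2.symm
  have A01 : ∀ x0 x1 x2 y2 : Bool, α (x0, x1, x2) (none, none, some y2) = v01 x0 x1 y2 := by
    intro x0 x1 x2 y2
    rw [hv01, (K01 x0 x1 x2 x0 x1 y2).2]
    exact (K01 x0 x1 y2 x0 x1 y2).2.symm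
  have A02 : ∀ x0 x1 x2 y1 : Bool, α (x0, x1, x2) (none, some y1, none) = v02 x0 y1 x2 := by
    intro x0 x1 x2 y1
    rw [hv02, (K02 x0 x1 x2 x0 y1 x2).2]
    exact (K02 x0 y1 x2 x0 y1 x2).2.symm
  have A12 : ∀ x0 x1 x2 y0 : Bool, α (x0, x1, x2) (some y0, none, none) = v12 y0 x1 x2 := by
    intro x0 x1 x2 y0
    rw [hv12, (K12 x0 x1 x2 y0 x1 x2).2]
    exact (K12 y0 x1 x2 y0 x1 x2).2.symm
  have B0 : ∀ y0 y1 y2 z : Bool, β (y0, y1, y2) (some z, none, none) = v0 z y1 y2 := by
    intro y0 y1 y2 z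
    rw [← A0 z y1 y2 y1 y2, (K0 z y1 y2 y0 y1 y2).2]
  have B1 : ∀ y0 y1 y2 z : Bool, β (y0, y1, y2) (none, some z, none) = v1 y0 z y2 := by
    intro y0 y1 y2 z
    rw [← A1 y0 z y2 y0 y2, (K1 y0 z y2 y0 y1 y2).2]
  have B2 : ∀ y0 y1 y2 z : Bool, β (y0, y1, y2) (none, none, some z) = v2 y0 y1 z := by
    intro y0 y1 y2 z
    rw [← A2 y0 y1 z y0 y1, (K2 y0 y1 z y0 y1 y2).2]
  have B01 : ∀ y0 y1 y2 z w : Bool, β (y0, y1, y2) (some z, some w, none) = v01 z w y2 := by
    intro y0 y1 y2 z w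
    rw [← A01 z w y2 y2, (K01 z w y2 y0 y1 y2).2]
  have B02 : ∀ y0 y1 y2 z w : Bool, β (y0, y1, y2) (some z, none, some w) = v02 z y1 w := by
    intro y0 y1 y2 z w
    rw [← A02 z y1 w y1, (K02 z y1 w y0 y1 y2).2]
  have B12 : ∀ y0 y1 y2 z w : Bool, β (y0, y1, y2) (none, some z, some w) = v12 y0 z w := by
    intro y0 y1 y2 z w
    rw [← A12 y0 z w y0, (K12 y0 z w y0 y1 y2).2]
  have SXe : ∀ (V : E) (x0 x1 x2 : Bool), SX (fun a b c => inner ℝ (v0 a b c) V)
      (fun a b c => inner ℝ (v1 a b c) V) (fun a b c => inner ℝ (v2 a b c) V)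
      (fun a b c => inner ℝ (v01 a b c) V) (fun a b c => inner ℝ (v02 a b c) V)
      (fun a b c => inner ℝ (v12 a b c) V) x0 x1 x2 = inner ℝ ψ V := by
    intro V x0 x1 x2
    have e := congrArg (fun u => inner ℝ u V) (h.sumA (x0, x1, x2))
    simp only [Fintype.sum_prod_type, Fintype.sum_option, Fintype.sum_bool, inner_add_left,
      A0, A1, A2, A01, A02, A12, zA3, zA0, inner_zero_left] at e
    unfold SX
    linarith
  have SYe : ∀ (V : E) (x0 x1 x2 : Bool), SY (fun a b c => inner ℝ (v0 a b c) V)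
      (fun a b c => inner ℝ (v1 a b c) V) (fun a b c => inner ℝ (v2 a b c) V)
      (fun a b c => inner ℝ (v01 a b c) V) (fun a b c => inner ℝ (v02 a b c) V)
      (fun a b c => inner ℝ (v12 a b c) V) x0 x1 x2 = inner ℝ ψ V := by
    intro V x0 x1 x2
    have e := congrArg (fun u => inner ℝ u V) (h.sumB (x0, x1, x2))
    simp only [Fintype.sum_prod_type, Fintype.sum_option, Fintype.sum_bool, inner_add_left,
      B0, B1, B2, B01, B02, B12, zB3, zB0, inner_zero_left] at e
    unfold SY
    linarith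
  have step : ∀ (V : E) (y : Q) (b : Ans), V = β y b → inner ℝ V V = inner ℝ ψ V →
      (∃ w0 w1 w2, V = v01 w0 w1 w2 ∨ V = v02 w0 w1 w2 ∨ V = v12 w0 w1 w2) → V = 0 := by
    rintro V y b hVb hVV ⟨w0, w1, w2, hw⟩
    have P : ∀ x a, 0 ≤ inner ℝ (α x a) V := fun x a => by rw [hVb]; exact h.pos x a y b
    have hn : inner ℝ ψ V ≤ 0 := by
      refine lp_step (fun a b c => inner ℝ (v0 a b c) V)
        (fun a b c => inner ℝ (v1 a b c) V) (fun a b c => inner ℝ (v2 a b c) V)
        (fun a b c => inner ℝ (v01 a b c) V) (fun a b c => inner ℝ (v02 a b c) V)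
        (fun a b c => inner ℝ (v12 a b c) V) (inner ℝ ψ V) ?_ ?_ ?_ ?_ ?_ ?_ (SXe V) (SYe V)
        w0 w1 w2 ?_
      · intro a b c
        rw [hv0]; exact P _ _
      · intro a b c
        rw [hv1]; exact P _ _
      · intro a b c
        rw [hv2]; exact P _ _
      · intro a b c
        rw [hv01]; exact P _ _
      · intro a b c
        rw [hv02]; exact P _ _
      · intro a b c
        rw [hv12]; exact P _ _
      · rcases hw with hw | hw | hw
        · left
          show inner ℝ (v01 w0 w1 w2) V = _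
          rw [← hw, hVV]
        · right; left
          show inner ℝ (v02 w0 w1 w2) V = _
          rw [← hw, hVV]
        · right; right
          show inner ℝ (v12 w0 w1 w2) V = _
          rw [← hw, hVV]
    exact eq_zero_of_inner_le (by rw [hVV]; exact hn)
  have Z01 : ∀ a b c, v01 a b c = 0 := by
    intro a b c
    refine step _ (a, b, c) (some a, some b, none) (B01 a b c a b).symm ?_ ⟨a, b, c, Or.inl rfl⟩
    have e := (K01 a b c a b c).1
    rw [B01, A01] at e
    exact e
  have Z02 : ∀ a b c, v02 a b c = 0 := by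
    intro a b c
    refine step _ (a, b, c) (some a, none, some c) (B02 a b c a c).symm ?_
      ⟨a, b, c, Or.inr (Or.inl rfl)⟩
    have e := (K02 a b c a b c).1
    rw [B02, A02] at e
    exact e
  have Z12 : ∀ a b c, v12 a b c = 0 := by
    intro a b c
    refine step _ (a, b, c) (none, some b, some c) (B12 a b c b c).symm ?_
      ⟨a, b, c, Or.inr (Or.inr rfl)⟩
    have e := (K12 a b c a b c).1
    rw [B12, A12] at e
    exact e
  refine count_step (fun a b c => inner ℝ (v0 a b c) ψ) (fun a b c => inner ℝ (v1 a b c) ψ)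
    (fun a b c => inner ℝ (v2 a b c) ψ) ?_ ?_
  · intro a b c
    have e := SXe ψ a b c
    simp only [Z01, Z02, Z12, inner_zero_left] at e
    rw [e, h.unit]
  · intro a b c
    have e := SYe ψ a b c
    simp only [Z01, Z02, Z12, inner_zero_left] at e
    rw [e, h.unit]

end Pool.Agent.H20F
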