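import Pool.Agent.H20F.Defs

/-!
# Quantum strategies give vector systems
-/

set_option autoImplicit false

namespace Pool.Agent.H20F

open Matrix Kronecker ComplexOrder

section

variable {k : ℕ} {ι : Type} [Fintype ι] [DecidableEq ι]

/-- For `0 ≤ P ≤ 1` one has `P ^ 2 ≤ P`. -/
lemma sub_sq_posSemidef {P S : Matrix (Fin k) (Fin k) ℂ} (hP : P.PosSemidef) (hS : S.PosSemidef)
    (h : P + S = 1) : (P - P * P).PosSemidef := by
  have hS' : S = 1 - P := by rw [← h]; abel
  have e : P - P * P = S * P * S + P * S * P := by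
    subst hS'
    noncomm_ring
  have h1 : (S * P * S).PosSemidef := by
    have := hP.conjTranspose_mul_mul_same S
    rwa [hS.1.eq] at this
  have h2 : (P * S * P).PosSemidef := by
    have := hS.conjTranspose_mul_mul_same P
    rwa [hP.1.eq] at this
  rw [e]
  exact h1.add h2

end

/-- The vector `M ψ`. -/
noncomputable def vec {ι : Type} [Fintype ι] (ψ : ι → ℂ) (M : Matrix ι ι ℂ) :
    EuclideanSpace ℂ ι := WithLp.toLp 2 (M *ᵥ ψ)

noncomputable instance instRealInner {ι : Type} [Fintype ι] :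
    InnerProductSpace ℝ (EuclideanSpace ℂ ι) := InnerProductSpace.complexToReal

lemma inner_vec {ι : Type} [Fintype ι] (ψ : ι → ℂ) (A B : Matrix ι ι ℂ) :
    inner ℝ (vec ψ A) (vec ψ B) = (star ψ ⬝ᵥ ((Aᴴ * B) *ᵥ ψ)).re := by
  have h : inner ℝ (vec ψ A) (vec ψ B) = (inner ℂ (vec ψ A) (vec ψ B)).re := rfl
  rw [h]
  congr 1
  unfold vec
  rw [EuclideanSpace.inner_toLp_toLp, dotProduct_comm, star_mulVec, ← dotProduct_mulVec,
    mulVec_mulVec]

lemma vec_sum {ι κ : Type} [Fintype ι] (ψ : ι → ℂ) (s : Finset κ) (M : κ → Matrix ι ι ℂ) :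
    ∑ a ∈ s, vec ψ (M a) = vec ψ (∑ a ∈ s, M a) := by
  unfold vec
  rw [← WithLp.toLp_sum, Matrix.sum_mulVec]

lemma kron_sum_left {κ : Type} [Fintype κ] {m n : ℕ} (M : κ → Matrix (Fin m) (Fin m) ℂ)
    (N : Matrix (Fin n) (Fin n) ℂ) : ∑ a, M a ⊗ₖ N = (∑ a, M a) ⊗ₖ N := by
  ext ⟨i, j⟩ ⟨i', j'⟩
  simp [Matrix.sum_apply, Matrix.kroneckerMap_apply, Finset.sum_mul]

lemma kron_sum_right {κ : Type} [Fintype κ] {m n : ℕ} (M : κ → Matrix (Fin n) (Fin n) ℂ)
    (N : Matrix (Fin m) (Fin m) ℂ) : ∑ a, N ⊗ₖ M a = N ⊗ₖ (∑ a, M a) := by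
  ext ⟨i, j⟩ ⟨i', j'⟩
  simp [Matrix.sum_apply, Matrix.kroneckerMap_apply, Finset.mul_sum]

/-- Every quantum strategy gives a vector system with the same value. -/
theorem exists_vsys (s : Strategy) : ∃ (E : Type) (_ : NormedAddCommGroup E)
    (_ : InnerProductSpace ℝ E) (ψ : E) (α β : Q → Ans → E),
    VSys ψ α β ∧ vval α β = s.winProb := by
  refine ⟨EuclideanSpace ℂ (Fin s.m × Fin s.n), inferInstance, instRealInner, vec s.ψ 1,
    fun x a => vec s.ψ (s.P x a ⊗ₖ 1), fun y b => vec s.ψ (1 ⊗ₖ s.R y b), ?_, ?_⟩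
  · have hin : ∀ x a y b, inner ℝ (vec s.ψ (s.P x a ⊗ₖ 1)) (vec s.ψ (1 ⊗ₖ s.R y b))
        = (star s.ψ ⬝ᵥ ((s.P x a ⊗ₖ s.R y b) *ᵥ s.ψ)).re := by
      intro x a y b
      rw [inner_vec, conjTranspose_kronecker, (s.P_pos x a).1.eq, conjTranspose_one,
        ← mul_kronecker_mul, mul_one, one_mul]
    have hle : ∀ M : Matrix (Fin s.m × Fin s.n) (Fin s.m × Fin s.n) ℂ, M.IsHermitian →
        (M - M * M).PosSemidef → inner ℝ (vec s.ψ M) (vec s.ψ M)
          ≤ inner ℝ (vec s.ψ 1) (vec s.ψ M) := by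
      intro M hM hpos
      rw [inner_vec, inner_vec, hM.eq, conjTranspose_one, one_mul]
      have h := hpos.re_dotProduct_nonneg s.ψ
      rw [sub_mulVec, dotProduct_sub, map_sub] at h
      exact sub_nonneg.1 h
    refine ⟨?_, ?_, ?_, ?_, ?_, ?_⟩
    · rw [inner_vec, conjTranspose_one, one_mul, one_mulVec]
      have : star s.ψ ⬝ᵥ s.ψ = ((∑ i, ‖s.ψ i‖ ^ 2 : ℝ) : ℂ) := by
        rw [dotProduct]
        push_cast
        refine Finset.sum_congr rfl fun i _ => ?_
        rw [Pi.star_apply, ← Complex.conj_mul']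
        rfl
      rw [this, s.unit]
      simp
    · intro x
      show ∑ a, vec s.ψ (s.P x a ⊗ₖ 1) = vec s.ψ 1
      rw [vec_sum, kron_sum_left, s.P_sum, one_kronecker_one]
    · intro y
      show ∑ b, vec s.ψ (1 ⊗ₖ s.R y b) = vec s.ψ 1
      rw [vec_sum, kron_sum_right, s.R_sum, one_kronecker_one]
    · intro x a y b
      rw [hin]
      exact ((s.P_pos x a).kronecker (s.R_pos y b)).re_dotProduct_nonneg s.ψ
    · intro x a
      refine hle _ ?_ ?_
      · exact ((s.P_pos x a).kronecker PosSemidef.one).1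
      · have h1 : (∑ a' ∈ Finset.univ.erase a, s.P x a').PosSemidef :=
          posSemidef_sum _ fun a' _ => s.P_pos x a'
        have h2 : s.P x a + ∑ a' ∈ Finset.univ.erase a, s.P x a' = 1 := by
          rw [Finset.add_sum_erase _ _ (Finset.mem_univ a), s.P_sum]
        have h3 := (sub_sq_posSemidef (s.P_pos x a) h1 h2).kronecker
          (PosSemidef.one (n := Fin s.n) (R := ℂ))
        have e : (s.P x a ⊗ₖ (1 : Matrix (Fin s.n) (Fin s.n) ℂ))
            - (s.P x a ⊗ₖ (1 : Matrix (Fin s.n) (Fin s.n) ℂ)) * (s.P x a ⊗ₖ 1)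
            = (s.P x a - s.P x a * s.P x a) ⊗ₖ 1 := by
          rw [← mul_kronecker_mul, mul_one]
          ext ⟨i, j⟩ ⟨i', j'⟩
          simp [Matrix.kroneckerMap_apply, sub_mul]
        rw [e]
        exact h3
    · intro y b
      refine hle _ ?_ ?_
      · exact (PosSemidef.one.kronecker (s.R_pos y b)).1
      · have h1 : (∑ b' ∈ Finset.univ.erase b, s.R y b').PosSemidef :=
          posSemidef_sum _ fun b' _ => s.R_pos y b'
        have h2 : s.R y b + ∑ b' ∈ Finset.univ.erase b, s.R y b' = 1 := by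
          rw [Finset.add_sum_erase _ _ (Finset.mem_univ b), s.R_sum]
        have h3 := (PosSemidef.one (n := Fin s.m) (R := ℂ)).kronecker
          (sub_sq_posSemidef (s.R_pos y b) h1 h2)
        have e : ((1 : Matrix (Fin s.m) (Fin s.m) ℂ) ⊗ₖ s.R y b)
            - ((1 : Matrix (Fin s.m) (Fin s.m) ℂ) ⊗ₖ s.R y b) * (1 ⊗ₖ s.R y b)
            = 1 ⊗ₖ (s.R y b - s.R y b * s.R y b) := by
          rw [← mul_kronecker_mul, mul_one]
          ext ⟨i, j⟩ ⟨i', j'⟩
          simp [Matrix.kroneckerMap_apply, mul_sub]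
        rw [e]
        exact h3
  · have key : ∀ x a y b, inner ℝ (vec s.ψ (s.P x a ⊗ₖ 1)) (vec s.ψ (1 ⊗ₖ s.R y b))
        = s.corr a b x y := by
      intro x a y b
      unfold Strategy.corr
      rw [inner_vec, conjTranspose_kronecker, (s.P_pos x a).1.eq, conjTranspose_one,
        ← mul_kronecker_mul, mul_one, one_mul]
    unfold vval Strategy.winProb
    simp only [key]

end Pool.Agent.H20F
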